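import Pool.Agent.helper74.VQ.SpecA

/-!
# Project VQ (MP_07c750_an), row VIS: the exact isometry (helper30)
-/

set_option autoImplicit false

open scoped MatrixGroups ContDiff Topology UpperHalfPlane ComplexConjugate ENNReal
open UpperHalfPlane MeasureTheory Filter Set

namespace Pool.Agent.VQ

open Pool.Agent.RS

noncomputable section

/-- unfolding -/
lemma VIS_unf (Γ : Subgroup SL(2, ℝ)) (hΓ : Countable Γ) (F : Set ℍ) (hF : MeasurableSet F)
    (huniq : ∀ z : ℍ, ∃! γ : Γ, γ • z ∈ F) (K : ℍ → ℍ → ENNReal)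
    (hK : Measurable (Function.uncurry K)) (hinv : ∀ (γ : Γ) z w, K (γ • z) (γ • w) = K z w) :
    ∫⁻ z in F, ∫⁻ w, K z w = ∫⁻ w in F, ∫⁻ z, K z w := by
  have : SMulInvariantMeasure Γ ℍ (volume : Measure ℍ) := QU.A_INV.2.1 Γ
  have hfd : IsFundamentalDomain Γ F (volume : Measure ℍ) :=
    IsFundamentalDomain.mk' hF.nullMeasurableSet huniq
  have hact : ∀ γ : Γ, Measurable (fun z : ℍ => γ • z) := fun γ =>
    (continuous_const_smul γ).measurable
  have hK1 : ∀ (γ : Γ), Measurable (Function.uncurry fun z w => K z (γ⁻¹ • w)) := fun γ =>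
    hK.comp (measurable_fst.prodMk ((hact γ⁻¹).comp measurable_snd))
  have hK2 : ∀ (γ : Γ), Measurable (Function.uncurry fun w z => K (γ • z) w) := fun γ =>
    hK.comp (((hact γ).comp measurable_snd).prodMk measurable_fst)
  calc ∫⁻ z in F, ∫⁻ w, K z w = ∫⁻ z in F, ∑' γ : Γ, ∫⁻ w in F, K z (γ⁻¹ • w) := by
        refine lintegral_congr fun z => ?_
        exact hfd.lintegral_eq_tsum' (fun w => K z w)
    _ = ∑' γ : Γ, ∫⁻ z in F, ∫⁻ w in F, K z (γ⁻¹ • w) := by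
        refine lintegral_tsum fun γ => ?_
        exact (Measurable.lintegral_prod_right (hK1 γ)).aemeasurable
    _ = ∑' γ : Γ, ∫⁻ w in F, ∫⁻ z in F, K z (γ⁻¹ • w) := by
        refine tsum_congr fun γ => ?_
        exact lintegral_lintegral_swap (hK1 γ).aemeasurable
    _ = ∑' γ : Γ, ∫⁻ w in F, ∫⁻ z in F, K (γ • z) w := by
        refine tsum_congr fun γ => lintegral_congr fun w => lintegral_congr fun z => ?_
        have h := hinv γ z (γ⁻¹ • w)
        rw [smul_inv_smul] at h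
        exact h.symm
    _ = ∫⁻ w in F, ∑' γ : Γ, ∫⁻ z in F, K (γ • z) w := by
        refine (lintegral_tsum fun γ => ?_).symm
        exact (Measurable.lintegral_prod_right (hK2 γ)).aemeasurable
    _ = ∫⁻ w in F, ∫⁻ z, K z w := by
        refine lintegral_congr fun w => ?_
        exact (hfd.lintegral_eq_tsum'' (fun z => K z w)).symm

/-- the radial kernel as a function of `tt` -/
def VIS_k (ch : ℝ → ℝ) (ζ R t : ℝ) : ℝ :=
  (Real.exp (-(R * (4 * t / (t + 2)) / 2)) * ch (R ^ (1 - 2 * ζ) * (4 * t / (t + 2)))) ^ 2 *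
    ((1 - (4 * t / (t + 2)) / 4) ^ 2)⁻¹

lemma VIS_k_meas (ch : ℝ → ℝ) (ζ R : ℝ) (hch : CH ch) : Measurable (VIS_k ch ζ R) := by
  have h0 : Measurable fun t : ℝ => 4 * t / (t + 2) :=
    (measurable_const.mul measurable_id).div (measurable_id.add measurable_const)
  have h1 : Measurable ch := hch.smooth.continuous.measurable
  unfold VIS_k
  exact (((Real.measurable_exp.comp (((measurable_const.mul h0).div_const 2).neg)).mul
    (h1.comp (measurable_const.mul h0))).pow_const 2).mul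
    (((measurable_const.sub (h0.div_const 4)).pow_const 2).inv)

lemma VIS_k_eq (hVCD : VCD_stmt) (ch : ℝ → ℝ) (ζ R : ℝ) (y : ℍ) :
    b0 ch ζ R (cd y) ^ 2 * jd (cd y) = VIS_k ch ζ R (QU.tt y I) := by
  have h := hVCD.2.2.2.2.1 y
  have ht : 0 ≤ QU.tt y I := QU.A_TTT.2.1 y I
  have h2 : QU.tt y I + 2 ≠ 0 := by linarith
  have h3 : ‖cd y‖ ^ 2 = 4 * QU.tt y I / (QU.tt y I + 2) := by
    rw [eq_div_iff h2]
    exact h
  unfold VIS_k b0 jd
  rw [h3]

/-- the transform of one frame -/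
def VIS_H (ch : ℝ → ℝ) (ζ R : ℝ) (φ : ℍ → ℂ) (g : SL(2, ℝ)) (v : ℂ) : ℂ :=
  if ‖v‖ < 2 then φ (g • cdi v) * ((b0 ch ζ R v * jd v : ℝ) : ℂ) else 0

lemma VIS_jd_pos (v : ℂ) (hv : ‖v‖ < 2) : 0 < 1 - ‖v‖ ^ 2 / 4 := by
  nlinarith [norm_nonneg v]

lemma VIS_H_cont (hVCD : VCD_stmt) (ch : ℝ → ℝ) (ζ R : ℝ) (φ : ℍ → ℂ) (g : SL(2, ℝ))
    (hφ : Continuous φ) (hb : Continuous (b0 ch ζ R)) (hs : ∀ v, b0 ch ζ R v ≠ 0 → ‖v‖ ≤ 1 / 4) :
    Continuous (VIS_H ch ζ R φ g) ∧ HasCompactSupport (VIS_H ch ζ R φ g) := by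
  have hzero : ∀ v, 1 / 4 < ‖v‖ → VIS_H ch ζ R φ g v = 0 := by
    intro v hv
    unfold VIS_H
    split_ifs
    · have h0 : b0 ch ζ R v = 0 := by
        by_contra hne
        exact absurd (hs v hne) (not_le.2 hv)
      rw [h0, zero_mul, Complex.ofReal_zero, mul_zero]
    · rfl
  constructor
  · rw [continuous_iff_continuousAt]
    intro v
    rcases lt_or_ge ‖v‖ 2 with hv | hv
    · have hnhds : Metric.ball (0 : ℂ) 2 ∈ 𝓝 v :=
        Metric.isOpen_ball.mem_nhds (by rwa [mem_ball_zero_iff])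
      have hon : ContinuousOn (fun v : ℂ => φ (g • cdi v) * ((b0 ch ζ R v * jd v : ℝ) : ℂ))
          (Metric.ball (0 : ℂ) 2) := by
        refine (hφ.comp_continuousOn (hVCD.2.2.2.2.2.2.2.2.1 g)).mul ?_
        refine Complex.continuous_ofReal.comp_continuousOn ?_
        refine hb.continuousOn.mul ?_
        unfold jd
        refine ContinuousOn.inv₀ (by fun_prop) ?_
        intro w hw
        rw [mem_ball_zero_iff] at hw
        exact pow_ne_zero 2 (VIS_jd_pos w hw).ne'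
      refine (hon.continuousAt hnhds).congr ?_
      filter_upwards [hnhds] with w hw
      rw [mem_ball_zero_iff] at hw
      unfold VIS_H
      rw [if_pos hw]
    · have hnhds : {w : ℂ | 1 / 4 < ‖w‖} ∈ 𝓝 v :=
        (isOpen_lt continuous_const continuous_norm).mem_nhds (by
          show 1 / 4 < ‖v‖
          linarith)
      refine (continuousAt_const (y := (0 : ℂ))).congr ?_
      filter_upwards [hnhds] with w hw
      exact (hzero w hw).symm
  · refine HasCompactSupport.intro (isCompact_closedBall (0 : ℂ) (1 / 4)) ?_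
    intro v hv
    rw [mem_closedBall_zero_iff, not_le] at hv
    exact hzero v hv

lemma VIS_enorm_sq {x : ℂ} : ‖x‖ₑ ^ 2 = ENNReal.ofReal (‖x‖ ^ 2) := by
  rw [ENNReal.ofReal_pow (norm_nonneg x), ofReal_norm]

lemma VIS_b0_nonneg (ch : ℝ → ℝ) (ζ R : ℝ) (hch : CH ch) (v : ℂ) : 0 ≤ b0 ch ζ R v :=
  mul_nonneg (Real.exp_pos _).le (hch.bd _).1

lemma VIS_H_int (hVCD : VCD_stmt) (hVCM : VCM_stmt) (ch : ℝ → ℝ) (ζ R : ℝ) (hch : CH ch)
    (φ : ℍ → ℂ) (g : SL(2, ℝ)) (hφ : Continuous φ) :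
    ∫⁻ v : ℂ, ‖VIS_H ch ζ R φ g v‖ₑ ^ 2 =
      ∫⁻ w : ℍ, ENNReal.ofReal (VIS_k ch ζ R (QU.tt (g • I) w)) * ‖φ w‖ₑ ^ 2 := by
  have hm : Measurable fun w : ℍ => ENNReal.ofReal (VIS_k ch ζ R (QU.tt (g • I) w)) * ‖φ w‖ₑ ^ 2 := by
    refine Measurable.mul ?_ (hφ.measurable.enorm.pow_const 2)
    refine ENNReal.measurable_ofReal.comp ((VIS_k_meas ch ζ R hch).comp ?_)
    exact (QU.A_TTT.2.2.2.2.1.comp (continuous_const.prodMk continuous_id)).measurable
  rw [hVCM.2.1 g _ hm, ← lintegral_indicator Metric.isOpen_ball.measurableSet]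
  refine lintegral_congr fun v => ?_
  by_cases hv : ‖v‖ < 2
  · rw [indicator_of_mem (by rwa [mem_ball_zero_iff])]
    have h1 : QU.tt (g • I) (g • cdi v) = QU.tt (cdi v) I := by
      rw [QU.A_TTT.2.2.2.1 g I (cdi v), QU.A_TTT.2.2.1]
    rw [h1, ← VIS_k_eq hVCD, (hVCD.2.1 v hv).1]
    unfold VIS_H
    rw [if_pos hv, enorm_mul, mul_pow, VIS_enorm_sq (x := ((b0 ch ζ R v * jd v : ℝ) : ℂ)),
      Complex.norm_real, Real.norm_eq_abs, sq_abs]
    have hj : 0 ≤ jd v := by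
      unfold jd
      positivity
    rw [← mul_assoc, ← ENNReal.ofReal_mul hj, mul_comm]
    congr 2
    ring
  · rw [indicator_of_notMem (by rwa [mem_ball_zero_iff])]
    unfold VIS_H
    rw [if_neg hv]
    simp

/-- one base point -/
lemma VIS_base (hVCD : VCD_stmt) (hVCM : VCM_stmt) (hVPL : VPL_stmt) (hVPO : VPO_stmt)
    (ch : ℝ → ℝ) (ζ R : ℝ) (hch : CH ch) (hR : 0 < R) (U : ℍ → ℝ) (φ : ℍ → ℂ) (g : SL(2, ℝ))
    (hφ : Continuous φ) (hU : 0 < U (g • I)) (hb : Continuous (b0 ch ζ R))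
    (hs : ∀ v, b0 ch ζ R v ≠ 0 → ‖v‖ ≤ 1 / 4)
    (hQ : ∀ θ E : ℝ, QF U ch ζ R φ (g * kM θ, E) = (cR ch ζ R : ℂ) * Ft R (VIS_H ch ζ R φ g)
      ((Real.sqrt (U (g • I) + 2 * E) : ℂ) * Complex.exp (((2 * θ : ℝ) : ℂ) * Complex.I))) :
    ∫⁻ θ in Ioc 0 (2 * Real.pi), ∫⁻ E in {E : ℝ | -(U (g • I) / 2) < E},
        ‖QF U ch ζ R φ (g * kM θ, E)‖ₑ ^ 2 =
      ENNReal.ofReal (cR ch ζ R ^ 2 * (2 * Real.pi / R) ^ 2) *
        ∫⁻ w : ℍ, ENNReal.ofReal (VIS_k ch ζ R (QU.tt (g • I) w)) * ‖φ w‖ₑ ^ 2 := by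
  obtain ⟨hHc, hHs⟩ := VIS_H_cont hVCD ch ζ R φ g hφ hb hs
  have hint : Integrable (VIS_H ch ζ R φ g) := hHc.integrable_of_hasCompactSupport hHs
  have hL2 : MemLp (VIS_H ch ζ R φ g) 2 := hHc.memLp_of_hasCompactSupport hHs
  obtain ⟨hFc, hFP⟩ := hVPL R (VIS_H ch ζ R φ g) hR hint hL2
  have hmeas : Measurable fun ξ : ℂ => ‖Ft R (VIS_H ch ζ R φ g) ξ‖ₑ ^ 2 :=
    hFc.measurable.enorm.pow_const 2
  have hpo := hVPO (U (g • I)) (fun ξ => ‖Ft R (VIS_H ch ζ R φ g) ξ‖ₑ ^ 2) hU hmeas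
  have hctop : ENNReal.ofReal (cR ch ζ R ^ 2) ≠ ⊤ := ENNReal.ofReal_ne_top
  have h1 : ∫⁻ θ in Ioc 0 (2 * Real.pi), ∫⁻ E in {E : ℝ | -(U (g • I) / 2) < E},
        ‖QF U ch ζ R φ (g * kM θ, E)‖ₑ ^ 2 = ENNReal.ofReal (cR ch ζ R ^ 2) *
      ∫⁻ ξ : ℂ, ‖Ft R (VIS_H ch ζ R φ g) ξ‖ₑ ^ 2 := by
    rw [← hpo, ← lintegral_const_mul' _ _ hctop]
    refine lintegral_congr fun θ => ?_
    rw [← lintegral_const_mul' _ _ hctop]
    refine lintegral_congr fun E => ?_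
    rw [hQ θ E, enorm_mul, mul_pow, VIS_enorm_sq (x := (cR ch ζ R : ℂ)), Complex.norm_real,
      Real.norm_eq_abs, sq_abs]
  have hsq : Integrable fun v : ℂ => ‖VIS_H ch ζ R φ g v‖ ^ 2 := hL2.integrable_norm_pow (by norm_num)
  rw [h1, hFP, ENNReal.ofReal_mul (by positivity),
    ofReal_integral_eq_lintegral_ofReal hsq (Eventually.of_forall fun v => by positivity)]
  have h2 : ∫⁻ v : ℂ, ENNReal.ofReal (‖VIS_H ch ζ R φ g v‖ ^ 2) =
      ∫⁻ w : ℍ, ENNReal.ofReal (VIS_k ch ζ R (QU.tt (g • I) w)) * ‖φ w‖ₑ ^ 2 := by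
    rw [← VIS_H_int hVCD hVCM ch ζ R hch φ g hφ]
    exact lintegral_congr fun v => VIS_enorm_sq.symm
  rw [h2, ← mul_assoc, ← ENNReal.ofReal_mul (by positivity)]

lemma VIS_kint (hVCD : VCD_stmt) (ch : ℝ → ℝ) (ζ R : ℝ) (hch : CH ch) (hb : bR ch ζ R ≠ 0) (w : ℍ) :
    ∫⁻ z : ℍ, ENNReal.ofReal (VIS_k ch ζ R (QU.tt z w)) = ENNReal.ofReal (bR ch ζ R) := by
  have : SMulInvariantMeasure SL(2, ℝ) ℍ (volume : Measure ℍ) := QU.A_INV.1
  have hm : Measurable fun z : ℍ => ENNReal.ofReal (VIS_k ch ζ R (QU.tt z w)) := by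
    refine ENNReal.measurable_ofReal.comp ((VIS_k_meas ch ζ R hch).comp ?_)
    exact (QU.A_TTT.2.2.2.2.1.comp (continuous_id.prodMk continuous_const)).measurable
  have hmp : MeasurePreserving (fun z : ℍ => toSL2R w • z) volume volume :=
    measurePreserving_smul (toSL2R w) volume
  rw [← hmp.lintegral_comp hm]
  have h1 : ∀ z : ℍ, VIS_k ch ζ R (QU.tt (toSL2R w • z) w) = b0 ch ζ R (cd z) ^ 2 * jd (cd z) := by
    intro z
    have h2 : QU.tt (toSL2R w • z) w = QU.tt z I := by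
      conv_lhs => rw [← toSL2R_smul_I w]
      have h3 : toSL2R (toSL2R w • I) = toSL2R w := by rw [toSL2R_smul_I]
      rw [h3]
      exact QU.A_TTT.2.2.2.1 (toSL2R w) z I
    rw [h2, VIS_k_eq hVCD]
  have hint : Integrable fun z : ℍ => b0 ch ζ R (cd z) ^ 2 * jd (cd z) := by
    by_contra hcon
    exact hb (integral_undef hcon)
  have hnn : 0 ≤ᵐ[volume] fun z : ℍ => b0 ch ζ R (cd z) ^ 2 * jd (cd z) :=
    Eventually.of_forall fun z => by
      have hj : 0 ≤ jd (cd z) := by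
        unfold jd
        positivity
      exact mul_nonneg (sq_nonneg _) hj
  unfold bR
  rw [ofReal_integral_eq_lintegral_ofReal hint hnn]
  exact lintegral_congr fun z => by rw [h1 z]

lemma VIS_nn (Γ : Subgroup SL(2, ℝ)) (F : Set ℍ) (hF : MeasurableSet F) (φ : ℍ → ℂ)
    (hφ : FH Γ F φ) : ∫⁻ w in F, ‖φ w‖ₑ ^ 2 = ENNReal.ofReal (nn F φ) := by
  obtain ⟨b, hb⟩ := hφ.supp
  have hc : Continuous fun z : ℍ => ‖φ z‖ ^ 2 := hφ.cont.norm.pow 2
  have hB : IntegrableOn (fun z : ℍ => ‖φ z‖ ^ 2) (Metric.closedBall I b) :=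
    hc.continuousOn.integrableOn_compact (isCompact_closedBall I b)
  have hI : IntegrableOn (fun z : ℍ => ‖φ z‖ ^ 2) F := by
    refine IntegrableOn.of_forall_sdiff_eq_zero hB hF ?_
    intro z hz
    have h0 : φ z = 0 := by
      by_contra hne
      exact hz.2 (Metric.mem_closedBall.2 (hb z hz.1 hne))
    show ‖φ z‖ ^ 2 = 0
    rw [h0, norm_zero]
    norm_num
  unfold nn
  rw [ofReal_integral_eq_lintegral_ofReal hI (Eventually.of_forall fun v => by positivity)]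
  exact lintegral_congr fun v => VIS_enorm_sq

theorem VIS_proof (hVCD : VCD_stmt) (hVQF : VQF_stmt) (hVPL : VPL_stmt) (hVPO : VPO_stmt)
    (hVBR : VBR_stmt) (hVCM : VCM_stmt) (hVDM : VDM_stmt) (hVQS : VQS_stmt) : VIS_stmt := by
  intro ch ζ hch hζ hζ8
  obtain ⟨R1, hR1, h1⟩ := hVBR ch ζ hch hζ hζ8
  obtain ⟨R2, hR2, h2⟩ := hVQF ch ζ hch hζ hζ8
  obtain ⟨R3, hR3, h3⟩ := hVQS ch ζ hch hζ hζ8
  refine ⟨max R1 (max R2 R3), le_max_of_le_left hR1, ?_⟩
  intro R Γ F U φ hR hDm hPU hφ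
  have hRR1 : R1 ≤ R := le_trans (le_max_left _ _) hR
  have hRR2 : R2 ≤ R := le_trans (le_trans (le_max_left _ _) (le_max_right _ _)) hR
  have hRR3 : R3 ≤ R := le_trans (le_trans (le_max_right _ _) (le_max_right _ _)) hR
  have hRpos : 0 < R := by linarith
  obtain ⟨hb1, hb2, hb3, hb4, hb5, hb6, hb7, -, -⟩ := h1 R hRR1
  obtain ⟨-, -, -, hq4, -, -⟩ := h3 R Γ F U hRR3 hDm hPU
  obtain ⟨hQc, hQP⟩ := hq4 φ hφ
  obtain ⟨hΓc, hFm, huniq, -, hW⟩ := hVDM Γ F hDm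
  have hdG : MeasurableSet (dG F) := (hW univ MeasurableSet.univ).2.2.2.2.1
  have hbR : bR ch ζ R ≠ 0 := by
    intro h0
    rw [h0, mul_zero] at hb7
    have : 0 < R ^ 2 / (2 * Real.pi) := by positivity
    linarith
  have hbRpos : 0 < bR ch ζ R := by
    rcases lt_or_ge 0 (bR ch ζ R) with h | h
    · exact h
    · exfalso
      have h4 : cR ch ζ R ^ 2 * bR ch ζ R ≤ 0 := mul_nonpos_of_nonneg_of_nonpos (sq_nonneg _) h
      have : 0 < R ^ 2 / (2 * Real.pi) := by positivity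
      linarith
  have hsc : SecondCountableTopology SL(2, ℝ) := A_GLC.2.1
  obtain ⟨-, -, -, -, -, -, -, -, -, -, -, -, -, -, -, hkI, -⟩ := A_GLC
  -- measurability
  set S : Set (SL(2, ℝ) × ℝ) := {p | -(U (p.1 • I) / 2) < p.2} with hS
  have hUc : Continuous fun g : SL(2, ℝ) => U (g • I) :=
    hPU.inv.1.comp (continuous_id.smul continuous_const)
  have hSm : MeasurableSet S := by
    refine measurableSet_lt ?_ measurable_snd
    exact ((hUc.measurable.comp measurable_fst).div_const 2).neg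
  have hGm : Measurable fun g : SL(2, ℝ) =>
      ∫⁻ E in {E : ℝ | -(U (g • I) / 2) < E}, ‖QF U ch ζ R φ (g, E)‖ₑ ^ 2 := by
    have h5 : (fun g : SL(2, ℝ) =>
        ∫⁻ E in {E : ℝ | -(U (g • I) / 2) < E}, ‖QF U ch ζ R φ (g, E)‖ₑ ^ 2) =
        fun g : SL(2, ℝ) => ∫⁻ E, S.indicator (fun p => ‖QF U ch ζ R φ p‖ₑ ^ 2) (g, E) := by
      funext g
      have hms : MeasurableSet {E : ℝ | -(U (g • I) / 2) < E} := measurableSet_lt measurable_const measurable_id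
      rw [← lintegral_indicator hms]
      rfl
    rw [h5]
    exact Measurable.lintegral_prod_right' (f := S.indicator (fun p => ‖QF U ch ζ R φ p‖ₑ ^ 2))
      ((hQP.meas.enorm.pow_const 2).indicator hSm)
  set G : SL(2, ℝ) → ENNReal := fun g =>
      ∫⁻ E in {E : ℝ | -(U (g • I) / 2) < E}, ‖QF U ch ζ R φ (g, E)‖ₑ ^ 2 with hG
  set A : ENNReal := ENNReal.ofReal (cR ch ζ R ^ 2 * (2 * Real.pi / R) ^ 2) with hA
  set K : ℍ → ℍ → ENNReal := fun z w =>
    ENNReal.ofReal (VIS_k ch ζ R (QU.tt z w)) * ‖φ w‖ₑ ^ 2 with hK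
  have hbase : ∀ z : ℍ, ∫⁻ θ in Ioc 0 (2 * Real.pi), G (toSL2R z * kM θ) = A * ∫⁻ w, K z w := by
    intro z
    have hz : toSL2R z • I = z := toSL2R_smul_I z
    have h6 := VIS_base hVCD hVCM hVPL hVPO ch ζ R hch hRpos U φ (toSL2R z) hφ.cont
      (by have := (hPU.bd (toSL2R z • I)).1; linarith) hb1.continuous
      (fun v hv => (hb2 v hv).trans hb4) (fun θ E => h2 R U φ (toSL2R z) θ E hRR2 hφ.cont)
    rw [hz] at h6
    rw [← h6]
    refine lintegral_congr fun θ => ?_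
    have h7 : (toSL2R z * kM θ) • I = z := by
      rw [mul_smul, hkI θ, hz]
    simp only [hG]
    rw [h7]
  have hind : ∀ z : ℍ, ∫⁻ θ in Ioc 0 (2 * Real.pi), (dG F).indicator G (toSL2R z * kM θ) =
      F.indicator (fun z => A * ∫⁻ w, K z w) z := by
    intro z
    have h7 : ∀ θ, (toSL2R z * kM θ) • I = z := by
      intro θ
      rw [mul_smul, hkI θ, toSL2R_smul_I]
    by_cases hzF : z ∈ F
    · rw [indicator_of_mem hzF, ← hbase z]
      refine lintegral_congr fun θ => ?_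
      rw [indicator_of_mem]
      show (toSL2R z * kM θ) • I ∈ F
      rw [h7 θ]
      exact hzF
    · rw [indicator_of_notMem hzF]
      have h8 : ∀ θ, (dG F).indicator G (toSL2R z * kM θ) = 0 := by
        intro θ
        rw [indicator_of_notMem]
        show ¬ (toSL2R z * kM θ) • I ∈ F
        rw [h7 θ]
        exact hzF
      simp only [h8, lintegral_zero]
  have hKm : Measurable (Function.uncurry K) := by
    refine Measurable.mul ?_ ((hφ.cont.measurable.comp measurable_snd).enorm.pow_const 2)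
    exact ENNReal.measurable_ofReal.comp ((VIS_k_meas ch ζ R hch).comp QU.A_TTT.2.2.2.2.1.measurable)
  have hKinv : ∀ (γ : Γ) z w, K (γ • z) (γ • w) = K z w := by
    intro γ z w
    have e1 : QU.tt (γ • z) (γ • w) = QU.tt z w := QU.A_TTT.2.2.2.1 (γ : SL(2, ℝ)) z w
    simp only [hK]
    rw [e1, hφ.inv]
  have hKz : ∀ w : ℍ, ∫⁻ z, K z w = ENNReal.ofReal (bR ch ζ R) * ‖φ w‖ₑ ^ 2 := by
    intro w
    have hne : ‖φ w‖ₑ ^ 2 ≠ ⊤ := by
      rw [VIS_enorm_sq]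
      exact ENNReal.ofReal_ne_top
    simp only [hK]
    rw [lintegral_mul_const' _ _ hne, VIS_kint hVCD ch ζ R hch hbR w]
  have hpi : (0 : ℝ) < 2 * Real.pi := by positivity
  have hcne : (ENNReal.ofReal (2 * Real.pi))⁻¹ ≠ ⊤ := by
    rw [← ENNReal.ofReal_inv_of_pos hpi]
    exact ENNReal.ofReal_ne_top
  have hAne : A ≠ ⊤ := ENNReal.ofReal_ne_top
  calc ∫⁻ g in dG F, G g ∂mG = ∫⁻ g, (dG F).indicator G g ∂mG := (lintegral_indicator hdG _).symm
    _ = ∫⁻ z : ℍ, (ENNReal.ofReal (2 * Real.pi))⁻¹ *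
          ∫⁻ θ in Ioc 0 (2 * Real.pi), (dG F).indicator G (toSL2R z * kM θ) :=
        A_GMG.2.2.2.1 _ (hGm.indicator hdG)
    _ = (ENNReal.ofReal (2 * Real.pi))⁻¹ * ∫⁻ z : ℍ, F.indicator (fun z => A * ∫⁻ w, K z w) z := by
        rw [lintegral_const_mul' _ _ hcne]
        congr 1
        exact lintegral_congr hind
    _ = (ENNReal.ofReal (2 * Real.pi))⁻¹ * (A * ∫⁻ z in F, ∫⁻ w, K z w) := by
        rw [lintegral_indicator hFm, lintegral_const_mul' _ _ hAne]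
    _ = (ENNReal.ofReal (2 * Real.pi))⁻¹ * (A * ∫⁻ w in F, ∫⁻ z, K z w) := by
        rw [VIS_unf Γ hΓc F hFm huniq K hKm hKinv]
    _ = (ENNReal.ofReal (2 * Real.pi))⁻¹ * (A * (ENNReal.ofReal (bR ch ζ R) * ∫⁻ w in F, ‖φ w‖ₑ ^ 2)) := by
        rw [lintegral_congr hKz, lintegral_const_mul' _ _ ENNReal.ofReal_ne_top]
    _ = ENNReal.ofReal (nn F φ) := by
        rw [VIS_nn Γ F hFm φ hφ, ← mul_assoc A, ← mul_assoc, ← ENNReal.ofReal_inv_of_pos hpi, hA,
          ← ENNReal.ofReal_mul (by positivity), ← ENNReal.ofReal_mul (by positivity)]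
        have h9 : (2 * Real.pi)⁻¹ * (cR ch ζ R ^ 2 * (2 * Real.pi / R) ^ 2 * bR ch ζ R) = 1 := by
          have h10 : cR ch ζ R ^ 2 * (2 * Real.pi / R) ^ 2 * bR ch ζ R =
              (cR ch ζ R ^ 2 * bR ch ζ R) * (2 * Real.pi / R) ^ 2 := by ring
          rw [h10, hb7]
          have hRne : R ≠ 0 := hRpos.ne'
          have hpne : Real.pi ≠ 0 := Real.pi_ne_zero
          field_simp
        rw [h9, ENNReal.ofReal_one, one_mul]

end

end Pool.Agent.VQ
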