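import Pool.Agent.helper74.VQ.SpecC

/-!
# Project VQ (MP_07c750_an), row VTS: the small step (helper30)
-/

set_option autoImplicit false

open scoped MatrixGroups ContDiff Topology UpperHalfPlane ComplexConjugate ENNReal
open UpperHalfPlane MeasureTheory Filter Set

namespace Pool.Agent.VQ

open Pool.Agent.RS

noncomputable section

/-- square integrability on the window -/
lemma VTS_int (hVDM : VDM_stmt) (Γ : Subgroup SL(2, ℝ)) (F : Set ℍ) (hD : Dm Γ F) (R : ℝ)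
    (hR : 2 * R ^ (-(1 / 4) : ℝ) ≤ 1) (v : SL(2, ℝ) × ℝ → ℂ) (hv : FP Γ F v) :
    IntegrableOn (fun p => ‖v p‖ ^ 2) (PW F 2 R) mP := by
  obtain ⟨-, hF, -, -, hW⟩ := hVDM Γ F hD
  obtain ⟨-, -, -, -, hdG, hfin⟩ := hW (Wi 2 R) measurableSet_Icc
  obtain ⟨b, hb⟩ := hv.bdd
  obtain ⟨c, hc⟩ := hv.supp
  have hPW : MeasurableSet (PW F 2 R) := hdG.prod measurableSet_Icc
  set S : Set (SL(2, ℝ) × ℝ) := {g : SL(2, ℝ) | dist (g • I : ℍ) I ≤ c} ×ˢ (Wi 2 R ∩ Icc (-1) 1) with hS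
  have hSm : MeasurableSet S := by
    refine MeasurableSet.prod ?_ (measurableSet_Icc.inter measurableSet_Icc)
    exact (isClosed_le ((continuous_id.smul continuous_const).dist continuous_const)
      continuous_const).measurableSet
  refine Integrable.mono' (g := S.indicator fun _ => b ^ 2) ?_ ?_ ?_
  · refine (integrable_indicator_iff hSm).2 (integrableOn_const ?_ (by finiteness))
    exact ((Measure.restrict_apply_le (s := PW F 2 R) (t := S)).trans_lt (hfin c)).ne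
  · exact (hv.meas.norm.pow_const 2).aestronglyMeasurable
  · refine (ae_restrict_iff' hPW).2 (Eventually.of_forall fun p hp => ?_)
    rw [Real.norm_of_nonneg (by positivity)]
    by_cases h0 : v p = 0
    · rw [h0, norm_zero, zero_pow two_ne_zero]
      exact indicator_nonneg (fun _ _ => sq_nonneg b) p
    · have hpS : p ∈ S := by
        have h1 := hc p hp.1 h0
        have h2 : p.2 ∈ Icc (-(2 * R ^ (-(1 / 4) : ℝ))) (2 * R ^ (-(1 / 4) : ℝ)) := hp.2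
        exact ⟨h1, hp.2, by linarith [h2.1], by linarith [h2.2]⟩
      rw [indicator_of_mem hpS]
      exact pow_le_pow_left₀ (norm_nonneg _) (hb p) 2

/-- Fubini for one packet -/
lemma VTS_fub (Gk : (SL(2, ℝ) × ℝ) → ℍ → ℂ) (ψ : ℍ → ℂ) (v : SL(2, ℝ) × ℝ → ℂ) (z0 : ℍ)
    (ν : Measure (SL(2, ℝ) × ℝ)) [SigmaFinite ν]
    (hG : Continuous (fun x : (SL(2, ℝ) × ℝ) × ℍ => Gk x.1 x.2)) (hψ : Continuous ψ)
    (hv : Measurable v) (b m m' : ℝ) (hb : ∀ p, ‖v p‖ ≤ b) (hm : ∀ p z, ‖Gk p z‖ ≤ m)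
    (hm' : ∀ z, ‖ψ z‖ ≤ m') (hGs : ∀ p z, Gk p z ≠ 0 → dist (p.1 • I : ℍ) z ≤ 1)
    (hψs : ∀ z, ψ z ≠ 0 → dist z0 z ≤ 1)
    (hfin : ν {q | dist z0 (q.1 • I : ℍ) ≤ 2} < ⊤) :
    Integrable (fun q => (∫ z : ℍ, conj (ψ z) * Gk q z) * v q) ν ∧
    ∫ z : ℍ, (∫ q, v q * Gk q z ∂ν) * conj (ψ z) = ∫ q, (∫ z : ℍ, conj (ψ z) * Gk q z) * v q ∂ν := by
  set S : Set (SL(2, ℝ) × ℝ) := {q | dist z0 (q.1 • I : ℍ) ≤ 2} with hS
  have hSm : MeasurableSet S :=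
    (isClosed_le (continuous_const.dist (continuous_fst.smul continuous_const))
      continuous_const).measurableSet
  have hint : Integrable (fun x : (SL(2, ℝ) × ℝ) × ℍ => conj (ψ x.2) * Gk x.1 x.2 * v x.1)
      (ν.prod volume) := by
    refine Integrable.mono' (g := (S ×ˢ Metric.closedBall z0 1).indicator fun _ => m' * m * b)
      ?_ ?_ ?_
    · refine (integrable_indicator_iff (hSm.prod measurableSet_closedBall)).2
        (integrableOn_const ?_ (by finiteness))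
      rw [Measure.prod_prod]
      exact (ENNReal.mul_lt_top hfin (isCompact_closedBall z0 1).measure_lt_top).ne
    · refine Measurable.aestronglyMeasurable ?_
      exact (((Complex.continuous_conj.measurable.comp (hψ.measurable.comp measurable_snd))).mul
        hG.measurable).mul (hv.comp measurable_fst)
    · refine Eventually.of_forall fun x => ?_
      by_cases hx : x ∈ S ×ˢ Metric.closedBall z0 1
      · rw [indicator_of_mem hx, norm_mul, norm_mul, RCLike.norm_conj]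
        have h1 : 0 ≤ m' := (norm_nonneg _).trans (hm' x.2)
        have h2 : 0 ≤ m := (norm_nonneg _).trans (hm x.1 x.2)
        exact mul_le_mul (mul_le_mul (hm' _) (hm _ _) (norm_nonneg _) h1) (hb _)
          (norm_nonneg _) (mul_nonneg h1 h2)
      · rw [indicator_of_notMem hx]
        have h0 : conj (ψ x.2) * Gk x.1 x.2 * v x.1 = 0 := by
          by_contra hne
          apply hx
          have h1 : ψ x.2 ≠ 0 := by
            intro h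
            apply hne
            rw [h, map_zero, zero_mul, zero_mul]
          have h2 : Gk x.1 x.2 ≠ 0 := by
            intro h
            apply hne
            rw [h, mul_zero, zero_mul]
          have h3 := hψs _ h1
          have h4 := hGs _ _ h2
          refine ⟨?_, ?_⟩
          · show dist z0 (x.1.1 • I : ℍ) ≤ 2
            have h5 := dist_triangle z0 x.2 (x.1.1 • I : ℍ)
            rw [dist_comm x.2] at h5
            linarith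
          · rw [Metric.mem_closedBall, dist_comm]
            exact h3
        rw [h0, norm_zero]
  have h2 : ∀ q, ∫ z : ℍ, conj (ψ z) * Gk q z * v q = (∫ z : ℍ, conj (ψ z) * Gk q z) * v q :=
    fun q => integral_mul_const _ _
  constructor
  · have h1 := hint.integral_prod_left
    simp only [h2] at h1
    exact h1
  · have h3 := integral_integral_swap (μ := ν) (ν := (volume : Measure ℍ))
      (f := fun q z => conj (ψ z) * Gk q z * v q) hint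
    simp only [h2] at h3
    rw [h3]
    refine integral_congr_ae (Eventually.of_forall fun z => ?_)
    show (∫ q, v q * Gk q z ∂ν) * conj (ψ z) = ∫ q, conj (ψ z) * Gk q z * v q ∂ν
    rw [← integral_mul_const]
    refine integral_congr_ae (Eventually.of_forall fun q => ?_)
    show v q * Gk q z * conj (ψ z) = conj (ψ z) * Gk q z * v q
    ring

/-- the majorant of the part of the kernel outside the boxes -/
def VTS_K (D : Dyn) (t κ : ℝ) (p q : SL(2, ℝ) × ℝ) : ENNReal :=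
  {x : (SL(2, ℝ) × ℝ) × (SL(2, ℝ) × ℝ) | |x.1.2| ≤ 1 / 8 ∧
    dist (D.fl x.1.2 t x.1.1 • I : ℍ) (x.2.1 • I) ≤ 2}.indicator (fun _ => ENNReal.ofReal κ) (p, q)

/-- the Schur estimate -/
lemma VTS_schur (hVSH : VSH_stmt) (hVNV : VNV_stmt) (hVDM : VDM_stmt) (hHFA : HFA_stmt) :
    ∃ C : ℝ, 1 ≤ C ∧ ∀ (Γ : Subgroup SL(2, ℝ)) (F : Set ℍ) (δ : ℝ) (B : ℕ → ℝ) (D : Dyn)
      (R t κ : ℝ), Dm Γ F → OKD Γ δ B D → δ ≤ 1 / 10 → 2 * R ^ (-(1 / 4) : ℝ) ≤ 1 / 8 → 1 ≤ R →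
      0 ≤ κ → ∀ (v w : SL(2, ℝ) × ℝ → ℂ), FP Γ F v →
      (∀ p ∈ GW 2 R, ‖w p‖ₑ ≤ ∫⁻ q in GW 2 R, VTS_K D t κ p q * ‖v q‖ₑ ∂mP) →
      nP F 2 R w ≤ (C * κ) ^ 2 * nP F 2 R v := by
  obtain ⟨C, hC, hN⟩ := hVNV
  refine ⟨C, hC, ?_⟩
  intro Γ F δ B D R t κ hD hO hδ hR4 hR1 hκ v w hv hw
  obtain ⟨hcnt, hF, huniq, -, hW⟩ := hVDM Γ F hD
  obtain ⟨hsf, hmp, -, hres, hdG, -⟩ := hW (Wi 2 R) measurableSet_Icc
  have := hcnt
  have := hsf
  have hsc : SecondCountableTopology SL(2, ℝ) := A_GLC.2.1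
  have hGW : MeasurableSet (GW 2 R) := MeasurableSet.univ.prod measurableSet_Icc
  have hKm : Measurable (Function.uncurry (VTS_K D t κ)) := by
    have hcl : IsClosed {x : (SL(2, ℝ) × ℝ) × (SL(2, ℝ) × ℝ) | |x.1.2| ≤ 1 / 8 ∧
        dist (D.fl x.1.2 t x.1.1 • I : ℍ) (x.2.1 • I) ≤ 2} := by
      have h1 : IsClosed {x : (SL(2, ℝ) × ℝ) × (SL(2, ℝ) × ℝ) | |x.1.2| ≤ 1 / 8} :=
        isClosed_le (continuous_abs.comp (continuous_snd.comp continuous_fst)) continuous_const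
      have h2 : ContinuousOn (fun x : (SL(2, ℝ) × ℝ) × (SL(2, ℝ) × ℝ) =>
          dist (D.fl x.1.2 t x.1.1 • I : ℍ) (x.2.1 • I))
          {x : (SL(2, ℝ) × ℝ) × (SL(2, ℝ) × ℝ) | |x.1.2| ≤ 1 / 8} := by
        have h3 : ContinuousOn (fun x : (SL(2, ℝ) × ℝ) × (SL(2, ℝ) × ℝ) => D.fl x.1.2 t x.1.1)
            {x : (SL(2, ℝ) × ℝ) × (SL(2, ℝ) × ℝ) | |x.1.2| ≤ 1 / 8} := by
          have h4 : Continuous fun x : (SL(2, ℝ) × ℝ) × (SL(2, ℝ) × ℝ) =>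
              ((x.1.2, t, x.1.1) : ℝ × ℝ × SL(2, ℝ)) :=
            (continuous_snd.comp continuous_fst).prodMk (continuous_const.prodMk
              (continuous_fst.comp continuous_fst))
          exact hO.cfl.comp h4.continuousOn (fun x hx => hx)
        have h6 : ContinuousOn (fun x : (SL(2, ℝ) × ℝ) × (SL(2, ℝ) × ℝ) =>
            (D.fl x.1.2 t x.1.1 • I : ℍ)) {x : (SL(2, ℝ) × ℝ) × (SL(2, ℝ) × ℝ) | |x.1.2| ≤ 1 / 8} :=
          h3.smul continuousOn_const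
        have h7 : Continuous (fun x : (SL(2, ℝ) × ℝ) × (SL(2, ℝ) × ℝ) => (x.2.1 • I : ℍ)) :=
          (continuous_fst.comp continuous_snd).smul continuous_const
        exact continuous_dist.comp_continuousOn (h6.prodMk h7.continuousOn)
      have h5 := h2.preimage_isClosed_of_isClosed h1 (isClosed_Iic (a := (2 : ℝ)))
      exact h5
    exact measurable_const.indicator hcl.measurableSet
  have hKi : ∀ (γ : Γ) (x y : SL(2, ℝ) × ℝ), VTS_K D t κ (γ • x) (γ • y) = VTS_K D t κ x y := by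
    intro γ x y
    have hiff : ((γ • x, γ • y) : (SL(2, ℝ) × ℝ) × (SL(2, ℝ) × ℝ)) ∈
        {x : (SL(2, ℝ) × ℝ) × (SL(2, ℝ) × ℝ) | |x.1.2| ≤ 1 / 8 ∧
        dist (D.fl x.1.2 t x.1.1 • I : ℍ) (x.2.1 • I) ≤ 2} ↔
        ((x, y) : (SL(2, ℝ) × ℝ) × (SL(2, ℝ) × ℝ)) ∈
        {x : (SL(2, ℝ) × ℝ) × (SL(2, ℝ) × ℝ) | |x.1.2| ≤ 1 / 8 ∧
        dist (D.fl x.1.2 t x.1.1 • I : ℍ) (x.2.1 • I) ≤ 2} := by
      show (|x.2| ≤ 1 / 8 ∧ dist (D.fl x.2 t ((γ : SL(2, ℝ)) * x.1) • I : ℍ)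
        (((γ : SL(2, ℝ)) * y.1) • I) ≤ 2) ↔ (|x.2| ≤ 1 / 8 ∧ dist (D.fl x.2 t x.1 • I : ℍ)
        (y.1 • I) ≤ 2)
      refine and_congr_right fun hx => ?_
      rw [(hHFA Γ δ B D hO hδ x.2 0 t hx x.1).2.1 γ, mul_smul, mul_smul, dist_smul]
    unfold VTS_K
    by_cases h : ((x, y) : (SL(2, ℝ) × ℝ) × (SL(2, ℝ) × ℝ)) ∈
        {x : (SL(2, ℝ) × ℝ) × (SL(2, ℝ) × ℝ) | |x.1.2| ≤ 1 / 8 ∧
        dist (D.fl x.1.2 t x.1.1 • I : ℍ) (x.2.1 • I) ≤ 2}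
    · rw [indicator_of_mem h, indicator_of_mem (hiff.2 h)]
    · rw [indicator_of_notMem h, indicator_of_notMem (fun h' => h (hiff.1 h'))]
  have hKle : ∀ p q (P : Prop), (dist (D.fl p.2 t p.1 • I : ℍ) (q.1 • I) ≤ 2 → P) →
      (¬P → VTS_K D t κ p q = 0) := by
    intro p q P hP hn
    unfold VTS_K
    refine indicator_of_notMem ?_ _
    intro h
    exact hn (hP h.2)
  have hvol : ∀ (h : SL(2, ℝ)) (s : ℝ), mP {q | q ∈ GW 2 R ∧
      dist (h • I : ℍ) (D.fl q.2 s q.1 • I) ≤ 2} ≤ ENNReal.ofReal C := fun h s =>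
    (hN Γ δ B D hO hδ R hR4 hR1 h 0 s (1 / 4) (by norm_num) (by norm_num) le_rfl
      (by norm_num)).2.2
  have hst : ∀ (f : SL(2, ℝ) × ℝ → ENNReal) (S : Set (SL(2, ℝ) × ℝ)), (∀ q, f q ≤ ENNReal.ofReal κ) →
      (∀ q, q ∉ S → f q = 0) → mP {q : SL(2, ℝ) × ℝ | q ∈ GW 2 R ∧ q ∈ S} ≤ ENNReal.ofReal C →
      ∫⁻ q in GW 2 R, f q ∂mP ≤ ENNReal.ofReal (C * κ) := by
    intro f S hf1 hf2 hS
    calc ∫⁻ q in GW 2 R, f q ∂mP = ∫⁻ q, (GW 2 R).indicator f q ∂mP := (lintegral_indicator hGW f).symm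
      _ ≤ ∫⁻ q, (toMeasurable mP {q : SL(2, ℝ) × ℝ | q ∈ GW 2 R ∧ q ∈ S}).indicator (fun _ => ENNReal.ofReal κ) q ∂mP := by
          refine lintegral_mono fun q => ?_
          by_cases h1 : q ∈ GW 2 R
          · by_cases h2 : q ∈ S
            · rw [indicator_of_mem h1, indicator_of_mem (subset_toMeasurable mP {q : SL(2, ℝ) × ℝ | q ∈ GW 2 R ∧ q ∈ S} ⟨h1, h2⟩)]
              exact hf1 q
            · rw [indicator_of_mem h1, hf2 q h2]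
              exact bot_le
          · rw [indicator_of_notMem h1]
            exact bot_le
      _ = ENNReal.ofReal κ * mP {q : SL(2, ℝ) × ℝ | q ∈ GW 2 R ∧ q ∈ S} := by
          rw [lintegral_indicator_const (measurableSet_toMeasurable _ _), measure_toMeasurable]
      _ ≤ ENNReal.ofReal κ * ENNReal.ofReal C := by gcongr
      _ = ENNReal.ofReal (C * κ) := by
          rw [← ENNReal.ofReal_mul hκ, mul_comm]
  have hKb : ∀ p q, VTS_K D t κ p q ≤ ENNReal.ofReal κ := fun p q => by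
    unfold VTS_K
    exact indicator_le_self' (fun _ _ => bot_le) _
  have ha : ∀ p, ∫⁻ q, VTS_K D t κ p q ∂(mP.restrict (univ ×ˢ Wi 2 R)) ≤ ENNReal.ofReal (C * κ) := by
    intro p
    refine hst (fun q => VTS_K D t κ p q) {q | dist (D.fl p.2 t p.1 • I : ℍ) (q.1 • I) ≤ 2}
      (hKb p) (fun q hq => hKle p q _ (fun h => h) hq) ?_
    refine (measure_mono ?_).trans (hvol (D.fl p.2 t p.1) 0)
    intro q hq
    refine ⟨hq.1, ?_⟩
    rw [hO.fl0]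
    exact hq.2
  have hb : ∀ q, ∫⁻ p, VTS_K D t κ p q ∂(mP.restrict (univ ×ˢ Wi 2 R)) ≤ ENNReal.ofReal (C * κ) := by
    intro q
    refine hst (fun p => VTS_K D t κ p q) {p | dist (D.fl p.2 t p.1 • I : ℍ) (q.1 • I) ≤ 2}
      (fun p => hKb p q) (fun p hp => hKle p q _ (fun h => h) hp) ?_
    refine (measure_mono ?_).trans (hvol q.1 t)
    intro p hp
    refine ⟨hp.1, ?_⟩
    rw [dist_comm]
    exact hp.2
  have hm : ∀ γ : Γ, MeasurePreserving (fun x : SL(2, ℝ) × ℝ => γ • x)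
      (mP.restrict (univ ×ˢ Wi 2 R)) (mP.restrict (univ ×ˢ Wi 2 R)) := fun γ => hmp (γ : SL(2, ℝ))
  have hu : ∀ x : SL(2, ℝ) × ℝ, ∃! γ : Γ, γ • x ∈ dG F ×ˢ (univ : Set ℝ) := by
    intro x
    obtain ⟨γ, hγ, hγ'⟩ := huniq (x.1 • I)
    refine ⟨γ, ⟨?_, mem_univ _⟩, ?_⟩
    · show ((γ : SL(2, ℝ)) * x.1) • I ∈ F
      rw [mul_smul]
      exact hγ
    · intro γ' h'
      refine hγ' γ' ?_
      have h2 : ((γ' : SL(2, ℝ)) * x.1) • I ∈ F := h'.1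
      rw [mul_smul] at h2
      exact h2
  have hmain := (hVSH Γ (SL(2, ℝ) × ℝ) (SL(2, ℝ) × ℝ) (mP.restrict (univ ×ˢ Wi 2 R))
    (mP.restrict (univ ×ˢ Wi 2 R)) (dG F ×ˢ univ) (dG F ×ˢ univ) hm hm hu hu
    (hdG.prod MeasurableSet.univ) (hdG.prod MeasurableSet.univ) (VTS_K D t κ) hKm hKi).2
    (ENNReal.ofReal (C * κ)) (ENNReal.ofReal (C * κ)) (fun q => ‖v q‖ₑ) hv.meas.enorm
    (fun γ y => by
      show ‖v ((γ : SL(2, ℝ)) * y.1, y.2)‖ₑ = ‖v y‖ₑ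
      rw [hv.inv]) ha hb
  rw [hres] at hmain
  have hPW : MeasurableSet (PW F 2 R) := hdG.prod measurableSet_Icc
  have hint := VTS_int hVDM Γ F hD R (by linarith) v hv
  have hfinal : ‖nP F 2 R w‖ₑ ≤ ENNReal.ofReal ((C * κ) ^ 2 * nP F 2 R v) := by
    calc ‖nP F 2 R w‖ₑ ≤ ∫⁻ p in PW F 2 R, ‖‖w p‖ ^ 2‖ₑ ∂mP := enorm_integral_le_lintegral_enorm _
      _ = ∫⁻ p in PW F 2 R, ‖w p‖ₑ ^ 2 ∂mP := by
          refine lintegral_congr fun p => ?_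
          rw [enorm_pow, enorm_norm]
      _ ≤ ∫⁻ p in PW F 2 R, (∫⁻ q in GW 2 R, VTS_K D t κ p q * ‖v q‖ₑ ∂mP) ^ 2 ∂mP := by
          refine setLIntegral_mono' hPW fun p hp => ?_
          exact pow_le_pow_left₀ bot_le (hw p ⟨mem_univ _, hp.2⟩) 2
      _ ≤ ENNReal.ofReal (C * κ) * ENNReal.ofReal (C * κ) * ∫⁻ q in PW F 2 R, ‖v q‖ₑ ^ 2 ∂mP := hmain
      _ = ENNReal.ofReal ((C * κ) ^ 2 * nP F 2 R v) := by
          have h1 : ∫⁻ q in PW F 2 R, ‖v q‖ₑ ^ 2 ∂mP = ENNReal.ofReal (nP F 2 R v) := by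
            unfold nP
            rw [ofReal_integral_eq_lintegral_ofReal hint
              (Eventually.of_forall fun p => by positivity)]
            refine lintegral_congr fun p => ?_
            rw [ENNReal.ofReal_pow (norm_nonneg _), ofReal_norm]
          rw [h1, ← ENNReal.ofReal_mul (by positivity), ← ENNReal.ofReal_mul (by positivity)]
          congr 1
          ring
  have hnn : 0 ≤ nP F 2 R w := integral_nonneg fun p => by positivity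
  have hnv : 0 ≤ nP F 2 R v := integral_nonneg fun p => by positivity
  rw [Real.enorm_of_nonneg hnn] at hfinal
  exact (ENNReal.ofReal_le_ofReal_iff (by positivity)).1 hfinal

/-- differences -/
lemma VTS_sub (Γ : Subgroup SL(2, ℝ)) (F : Set ℍ) (v w : SL(2, ℝ) × ℝ → ℂ) (hv : FP Γ F v)
    (hw : FP Γ F w) : FP Γ F (fun p => v p - w p) := by
  obtain ⟨b, hb⟩ := hv.bdd
  obtain ⟨b', hb'⟩ := hw.bdd
  obtain ⟨c, hc⟩ := hv.supp
  obtain ⟨c', hc'⟩ := hw.supp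
  refine ⟨hv.meas.sub hw.meas, ⟨b + b', fun p => (norm_sub_le _ _).trans (add_le_add (hb p) (hb' p))⟩,
    fun γ p => by rw [hv.inv, hw.inv], ⟨max c c', fun p hp hne => ?_⟩⟩
  by_cases h : v p = 0
  · refine (hc' p hp ?_).trans (le_max_right _ _)
    intro h'
    apply hne
    rw [h, h', sub_zero]
  · exact (hc p hp h).trans (le_max_left _ _)

/-- the triangle inequality -/
lemma VTS_tri (hVDM : VDM_stmt) (Γ : Subgroup SL(2, ℝ)) (F : Set ℍ) (hD : Dm Γ F) (R : ℝ)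
    (hR : 2 * R ^ (-(1 / 4) : ℝ) ≤ 1) (v w : SL(2, ℝ) × ℝ → ℂ) (hv : FP Γ F v) (hw : FP Γ F w)
    (s : ℝ) (hs : 0 < s) :
    nP F 2 R v ≤ (1 + s) * nP F 2 R w + (1 + s⁻¹) * nP F 2 R (fun p => v p - w p) := by
  have h1 := VTS_int hVDM Γ F hD R hR v hv
  have h2 := VTS_int hVDM Γ F hD R hR w hw
  have h3 := VTS_int hVDM Γ F hD R hR _ (VTS_sub Γ F v w hv hw)
  unfold nP
  rw [← integral_const_mul, ← integral_const_mul, ← integral_add (h2.const_mul _) (h3.const_mul _)]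
  refine integral_mono h1 ((h2.const_mul _).add (h3.const_mul _)) fun p => ?_
  show ‖v p‖ ^ 2 ≤ (1 + s) * ‖w p‖ ^ 2 + (1 + s⁻¹) * ‖v p - w p‖ ^ 2
  have h4 : ‖v p‖ ≤ ‖w p‖ + ‖v p - w p‖ := by
    have h := norm_add_le (w p) (v p - w p)
    rwa [add_sub_cancel] at h
  have h5 : 0 ≤ (Real.sqrt s * ‖w p‖ - (Real.sqrt s)⁻¹ * ‖v p - w p‖) ^ 2 := sq_nonneg _
  have h6 : Real.sqrt s ^ 2 = s := Real.sq_sqrt hs.le
  have h7 : Real.sqrt s ≠ 0 := (Real.sqrt_pos.2 hs).ne'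
  have h8 : (Real.sqrt s * ‖w p‖ - (Real.sqrt s)⁻¹ * ‖v p - w p‖) ^ 2 =
      s * ‖w p‖ ^ 2 - 2 * (‖w p‖ * ‖v p - w p‖) + s⁻¹ * ‖v p - w p‖ ^ 2 := by
    have h9 : Real.sqrt s * (Real.sqrt s)⁻¹ = 1 := mul_inv_cancel₀ h7
    have h10 : ((Real.sqrt s)⁻¹) ^ 2 = s⁻¹ := by rw [inv_pow, h6]
    calc (Real.sqrt s * ‖w p‖ - (Real.sqrt s)⁻¹ * ‖v p - w p‖) ^ 2 =
        Real.sqrt s ^ 2 * ‖w p‖ ^ 2 - 2 * (Real.sqrt s * (Real.sqrt s)⁻¹) * (‖w p‖ * ‖v p - w p‖) +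
          ((Real.sqrt s)⁻¹) ^ 2 * ‖v p - w p‖ ^ 2 := by ring
      _ = _ := by rw [h9, h10, h6]; ring
  rw [h8] at h5
  calc ‖v p‖ ^ 2 ≤ (‖w p‖ + ‖v p - w p‖) ^ 2 := pow_le_pow_left₀ (norm_nonneg _) h4 2
    _ ≤ (1 + s) * ‖w p‖ ^ 2 + (1 + s⁻¹) * ‖v p - w p‖ ^ 2 := by linarith

/-- one kernel -/
lemma VTS_one (hVDM : VDM_stmt) (hVNV : VNV_stmt) (Γ : Subgroup SL(2, ℝ)) (F : Set ℍ) (δ : ℝ) (B : ℕ → ℝ) (D : Dyn)
    (R t κ : ℝ) (hD : Dm Γ F) (hO : OKD Γ δ B D) (hδ : δ ≤ 1 / 10) (hR4 : 2 * R ^ (-(1 / 4) : ℝ) ≤ 1 / 8)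
    (hR1 : 1 ≤ R) (Gk ψ : SL(2, ℝ) × ℝ → ℍ → ℂ) (KT : SL(2, ℝ) × ℝ → SL(2, ℝ) × ℝ → ℂ)
    (v : SL(2, ℝ) × ℝ → ℂ) (hv : FP Γ F v)
    (hG : Continuous (fun x : (SL(2, ℝ) × ℝ) × ℍ => Gk x.1 x.2))
    (hψ : ∀ p ∈ GW 2 R, Continuous (ψ p)) (m m' : ℝ) (hm : ∀ p z, ‖Gk p z‖ ≤ m)
    (hm' : ∀ p ∈ GW 2 R, ∀ z, ‖ψ p z‖ ≤ m') (hGs : ∀ p z, Gk p z ≠ 0 → dist (p.1 • I : ℍ) z ≤ 1)
    (hψs : ∀ p ∈ GW 2 R, ∀ z, ψ p z ≠ 0 → dist (D.fl p.2 t p.1 • I : ℍ) z ≤ 1)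
    (hKTm : Measurable (Function.uncurry KT)) (hKT0 : ∀ p q, KT p q ≠ 0 → q ∈ GW 2 R)
    (hKT : ∀ p ∈ GW 2 R, ∀ q ∈ GW 2 R, KT p q = (∫ z : ℍ, conj (ψ p z) * Gk q z) ∨
      (KT p q = 0 ∧ ‖∫ z : ℍ, conj (ψ p z) * Gk q z‖ ≤ κ)) :
    ∀ p ∈ GW 2 R, ‖Op KT v p - ∫ z : ℍ, (∫ q in GW 2 R, v q * Gk q z ∂mP) * conj (ψ p z)‖ₑ ≤
      ∫⁻ q in GW 2 R, VTS_K D t κ p q * ‖v q‖ₑ ∂mP := by
  obtain ⟨C, hC, hN⟩ := hVNV
  intro p hp
  obtain ⟨-, hF, -, -, hW⟩ := hVDM Γ F hD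
  obtain ⟨hsf, -, -, -, hdG, -⟩ := hW (Wi 2 R) measurableSet_Icc
  obtain ⟨b, hb⟩ := hv.bdd
  have hGW : MeasurableSet (GW 2 R) := MeasurableSet.univ.prod measurableSet_Icc
  have hp8 : |p.2| ≤ 1 / 8 := by
    have h2 : p.2 ∈ Icc (-(2 * R ^ (-(1 / 4) : ℝ))) (2 * R ^ (-(1 / 4) : ℝ)) := hp.2
    rw [abs_le]
    exact ⟨by linarith [h2.1], by linarith [h2.2]⟩
  have : SigmaFinite (mP.restrict (GW 2 R)) := hsf
  have hSm : MeasurableSet {q : SL(2, ℝ) × ℝ | dist (D.fl p.2 t p.1 • I : ℍ) (q.1 • I : ℍ) ≤ 2} :=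
    (isClosed_le (continuous_const.dist (continuous_fst.smul continuous_const))
      continuous_const).measurableSet
  have hfin : (mP.restrict (GW 2 R)) {q : SL(2, ℝ) × ℝ | dist (D.fl p.2 t p.1 • I : ℍ) (q.1 • I : ℍ) ≤ 2} < ⊤ := by
    rw [Measure.restrict_apply hSm]
    have h1 := (hN Γ δ B D hO hδ R hR4 hR1 (D.fl p.2 t p.1) 0 0 (1 / 4) (by norm_num) (by norm_num)
      le_rfl (by norm_num)).2.2
    refine (measure_mono ?_).trans_lt (h1.trans_lt ENNReal.ofReal_lt_top)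
    intro q hq
    refine ⟨hq.2, ?_⟩
    rw [hO.fl0]
    exact hq.1
  obtain ⟨hi, he⟩ := VTS_fub Gk (ψ p) v (D.fl p.2 t p.1 • I) (mP.restrict (GW 2 R)) hG (hψ p hp)
    hv.meas b m m' hb hm (hm' p hp) hGs (hψs p hp) hfin
  have hOp : Op KT v p = ∫ q in GW 2 R, KT p q * v q ∂mP := by
    unfold Op
    rw [← integral_indicator hGW]
    refine integral_congr_ae (Eventually.of_forall fun q => ?_)
    show KT p q * v q = (GW 2 R).indicator (fun q => KT p q * v q) q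
    by_cases hq : q ∈ GW 2 R
    · rw [indicator_of_mem hq]
    · rw [indicator_of_notMem hq]
      have h0 : KT p q = 0 := by
        by_contra hne
        exact hq (hKT0 p q hne)
      rw [h0, zero_mul]
  have hi2 : Integrable (fun q => KT p q * v q) (mP.restrict (GW 2 R)) := by
    refine Integrable.mono hi ((hKTm.comp (measurable_const.prodMk measurable_id)).mul
      hv.meas).aestronglyMeasurable ?_
    refine (ae_restrict_iff' hGW).2 (Eventually.of_forall fun q hq => ?_)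
    rcases hKT p hp q hq with h | h
    · rw [h]
    · rw [h.1, zero_mul, norm_zero]
      exact norm_nonneg _
  rw [he, hOp, ← integral_sub hi2 hi]
  refine (enorm_integral_le_lintegral_enorm _).trans ?_
  refine setLIntegral_mono' hGW fun q hq => ?_
  rw [← sub_mul, enorm_mul]
  gcongr
  rcases hKT p hp q hq with h | h
  · rw [h, sub_self, enorm_zero]
    exact bot_le
  · rw [h.1, zero_sub, enorm_neg]
    by_cases h0 : (∫ z : ℍ, conj (ψ p z) * Gk q z) = 0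
    · rw [h0, enorm_zero]
      exact bot_le
    · obtain ⟨z, hz⟩ : ∃ z, conj (ψ p z) * Gk q z ≠ 0 := by
        by_contra hcon
        push Not at hcon
        apply h0
        simp only [hcon, integral_zero]
      have h1 : ψ p z ≠ 0 := by
        intro h
        apply hz
        rw [h, map_zero, zero_mul]
      have h2 : Gk q z ≠ 0 := by
        intro h
        apply hz
        rw [h, mul_zero]
      have h3 := hψs p hp z h1
      have h4 := hGs q z h2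
      have h5 := dist_triangle (D.fl p.2 t p.1 • I : ℍ) z (q.1 • I : ℍ)
      rw [dist_comm z] at h5
      have hmem : ((p, q) : (SL(2, ℝ) × ℝ) × (SL(2, ℝ) × ℝ)) ∈
          {x : (SL(2, ℝ) × ℝ) × (SL(2, ℝ) × ℝ) | |x.1.2| ≤ 1 / 8 ∧
          dist (D.fl x.1.2 t x.1.1 • I : ℍ) (x.2.1 • I) ≤ 2} := ⟨hp8, by
            show dist (D.fl p.2 t p.1 • I : ℍ) (q.1 • I) ≤ 2
            linarith⟩
      unfold VTS_K
      rw [indicator_of_mem hmem, ← ofReal_norm]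
      exact ENNReal.ofReal_le_ofReal h.2

/-- comparison of powers -/
lemma VTS_num (R : ℝ) (hR1 : (5 : ℝ) ^ (20 : ℕ) ≤ R) :
    (1 + R ^ (-4 : ℝ)) * (1 + R ^ (-(1 / 4) : ℝ)) ^ 2 + (1 + (R ^ (-4 : ℝ))⁻¹) * R ^ (-8 : ℝ) ≤
      (1 + R ^ (-(1 / 5) : ℝ)) ^ 2 := by
  have h1 : (1 : ℝ) ≤ R := le_trans (by norm_num) hR1
  have h0 : 0 < R := by linarith
  have hu0 : 0 < R ^ (-(1 / 4) : ℝ) := Real.rpow_pos_of_pos h0 _
  have hu1 : R ^ (-(1 / 4) : ℝ) ≤ 1 := Real.rpow_le_one_of_one_le_of_nonpos h1 (by norm_num)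
  have he0 : 0 < R ^ (-4 : ℝ) := Real.rpow_pos_of_pos h0 _
  have he1 : R ^ (-4 : ℝ) ≤ R ^ (-(1 / 4) : ℝ) := Real.rpow_le_rpow_of_exponent_le h1 (by norm_num)
  have h8 : R ^ (-8 : ℝ) = R ^ (-4 : ℝ) * R ^ (-4 : ℝ) := by
    rw [← Real.rpow_add h0]
    norm_num
  have h5 : R ^ (-(1 / 5) : ℝ) = R ^ (-(1 / 4) : ℝ) * R ^ (1 / 20 : ℝ) := by
    rw [← Real.rpow_add h0]
    norm_num
  have h20 : 5 ≤ R ^ (1 / 20 : ℝ) := by
    have h := Real.rpow_le_rpow (by norm_num) hR1 (by norm_num : (0 : ℝ) ≤ 1 / 20)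
    have h' : ((5 : ℝ) ^ (20 : ℕ)) ^ (1 / 20 : ℝ) = 5 := by
      rw [← Real.rpow_natCast, ← Real.rpow_mul (by norm_num)]
      norm_num
    rwa [h'] at h
  have h9 : (1 + (R ^ (-4 : ℝ))⁻¹) * R ^ (-8 : ℝ) = R ^ (-4 : ℝ) * R ^ (-4 : ℝ) + R ^ (-4 : ℝ) := by
    rw [h8]
    field_simp
  rw [h9, h5]
  set u := R ^ (-(1 / 4) : ℝ)
  set e := R ^ (-4 : ℝ)
  have h10 : e * e ≤ u * u := mul_le_mul he1 he1 he0.le hu0.le
  have h11 : u * 5 ≤ u * R ^ (1 / 20 : ℝ) := mul_le_mul_of_nonneg_left h20 hu0.le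
  have h12 : (1 + e) * (1 + u) ^ 2 ≤ (1 + u) * (1 + u) ^ 2 :=
    mul_le_mul_of_nonneg_right (by linarith) (by positivity)
  have h13 : (1 + u * 5) ^ 2 ≤ (1 + u * R ^ (1 / 20 : ℝ)) ^ 2 :=
    pow_le_pow_left₀ (by positivity) (by linarith) 2
  nlinarith [mul_nonneg hu0.le hu0.le, mul_nonneg (mul_nonneg hu0.le hu0.le) (sub_nonneg.2 hu1)]

lemma VTS_num2 : ∃ R0 : ℝ, (16 : ℝ) ^ (4 : ℕ) ≤ R0 ∧ ∀ R : ℝ, R0 ≤ R →
    (1 + R ^ (-4 : ℝ)) * (1 + R ^ (-(1 / 4) : ℝ)) ^ 2 + (1 + (R ^ (-4 : ℝ))⁻¹) * R ^ (-8 : ℝ) ≤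
      (1 + R ^ (-(1 / 5) : ℝ)) ^ 2 :=
  ⟨(5 : ℝ) ^ (20 : ℕ), by norm_num, VTS_num⟩

lemma VTS_psc (D : Dyn) (t : ℝ) (f : SL(2, ℝ) × ℝ → ℂ → ℂ)
    (h : ContinuousOn (fun x : (SL(2, ℝ) × ℝ) × ℍ => pF D t f x.1 x.2) {x | |x.1.2| ≤ 1 / 8})
    (p : SL(2, ℝ) × ℝ) (hp : |p.2| ≤ 1 / 8) : Continuous (fun z => pF D t f p z) := by
  have h1 : Continuous fun z : ℍ => ((p, z) : (SL(2, ℝ) × ℝ) × ℍ) :=
    continuous_const.prodMk continuous_id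
  have h2 := h.comp_continuous h1 (fun z => by
    show |p.2| ≤ 1 / 8
    exact hp)
  exact h2

lemma VTS_gc (G : SL(2, ℝ) × ℝ → ℍ → ℂ)
    (h : Continuous (fun x : (SL(2, ℝ) × ℝ) × ℍ => G x.1 x.2)) (p : SL(2, ℝ) × ℝ) :
    Continuous (G p) := by
  have h1 : Continuous fun z : ℍ => ((p, z) : (SL(2, ℝ) × ℝ) × ℍ) :=
    continuous_const.prodMk continuous_id
  exact h.comp h1

/-- boxes are monotone -/
lemma VTS_Nb (r r' : ℝ) (h : r ≤ r') (p q : SL(2, ℝ) × ℝ) (hN : Nb r p q) : Nb r' p q := by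
  refine ⟨?_, hN.2.trans_le h⟩
  rcases hN.1 with h1 | h1
  · exact Or.inl fun i j => (h1 i j).trans_le h
  · exact Or.inr fun i j => (h1 i j).trans_le h

theorem VTS_proof (hVUL : VUL_stmt) (hVSA : VSA_stmt) (hVQA : VQA_stmt) (hVUM : VUM_stmt)
    (hVSH : VSH_stmt) (hVNV : VNV_stmt) (hVFM : VFM_stmt) (hVFR : VFR_stmt) (hVQS : VQS_stmt)
    (hVDM : VDM_stmt) (hVUB : VUB_stmt) (hHFA : HFA_stmt) : VTS_stmt := by
  obtain ⟨C1, hC1, hVUL⟩ := hVUL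
  obtain ⟨C2, hC2, hVSA⟩ := hVSA
  obtain ⟨C3, hC3, hVFM⟩ := hVFM
  obtain ⟨C4, hC4, hVUM⟩ := hVUM
  obtain ⟨C5, hC5, hSch⟩ := VTS_schur hVSH hVNV hVDM hHFA
  refine ⟨C1 + C2 + C3 + C4 + 8, by linarith, ?_⟩
  intro ch B A hch hA
  set C := C1 + C2 + C3 + C4 + 8 with hCdef
  have he3 := hA.e3
  have hC8 : 8 ≤ C := by rw [hCdef]; linarith
  have hm1 : (1 : ℝ) ≤ A.m := by exact_mod_cast hA.m
  have hz : 0 < A.z := lt_of_lt_of_le (mul_pos (by linarith) he3) hA.z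
  have hz1 : 0 < A.z1 := lt_of_lt_of_le (mul_pos (by linarith) hz) hA.z1
  have hz2 : 0 < A.z2 := lt_of_lt_of_le (mul_pos (by linarith) hz1) hA.z2
  have hup : C * A.z2 ≤ 1 := by
    refine le_trans ?_ hA.up
    refine mul_le_mul_of_nonneg_left ?_ (by linarith)
    nlinarith
  have hez : A.e3 ≤ A.z := by nlinarith [hA.z]
  have hzz1 : A.z ≤ A.z1 := by nlinarith [hA.z1]
  have hzz2 : A.z1 ≤ A.z2 := by nlinarith [hA.z2]
  have hz28 : A.z2 ≤ 1 / 8 := by nlinarith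
  have hRg : ∀ C' : ℝ, 1 ≤ C' → C' ≤ C → Rg C' A.e3 A.z A.z1 := by
    intro C' h1 h2
    refine ⟨he3.le, hz, hzz1, ?_, ?_⟩
    · have := hA.z
      nlinarith
    · have := hA.z2
      nlinarith
  have hle1 : C1 ≤ C := by rw [hCdef]; linarith
  have hle2 : C2 ≤ C := by rw [hCdef]; linarith
  have hle3 : C3 ≤ C := by rw [hCdef]; linarith
  have hle4 : C4 ≤ C := by rw [hCdef]; linarith
  have hAdm : Adm C4 A := by
    refine ⟨he3, hA.m, le_trans (mul_le_mul_of_nonneg_right hle4 he3.le) hA.z,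
      le_trans (mul_le_mul_of_nonneg_right hle4 hz.le) hA.z1,
      le_trans (mul_le_mul_of_nonneg_right hle4 hz1.le) hA.z2,
      le_trans (mul_le_mul_of_nonneg_right hle4 (by positivity)) hA.up, hA.tu⟩
  obtain ⟨R1, hR1, hVUL⟩ := hVUL ch A.e3 A.z A.z1 5 B hch (hRg C1 hC1 hle1)
  obtain ⟨R2, hR2, hVSA⟩ := hVSA ch A.e3 A.z A.z1 B hch (hRg C2 hC2 hle2)
  obtain ⟨R3, hR3, hVFM⟩ := hVFM ch 0 A.e3 A.z A.z1 B hch (hRg C3 hC3 hle3)
  obtain ⟨R4, hR4, hVUM⟩ := hVUM ch B A hch hAdm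
  obtain ⟨R5, hR5, hVQS⟩ := hVQS ch A.z hch hz (by linarith)
  obtain ⟨R6, hR6, hVQA⟩ := hVQA ch A.z hch hz (by linarith)
  obtain ⟨R7, hR7, hnum⟩ := VTS_num2
  have hR7' : 1 ≤ R7 := le_trans (by norm_num) hR7
  refine ⟨R1 + R2 + R3 + R4 + R5 + R6 + R7 + C5, by linarith, ?_⟩
  intro R δ Γ F D v hR hD hO hδ hv
  have hRbig : R7 ≤ R := by linarith
  have hR16 : (16 : ℝ) ^ (4 : ℕ) ≤ R := hR7.trans hRbig
  have hR1' : 1 ≤ R := hR7'.trans hRbig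
  have hR0 : 0 < R := by linarith
  have hu : R ^ (-(1 / 4) : ℝ) ≤ 1 / 16 := by
    have h := Real.rpow_le_rpow (by norm_num) hR16 (by norm_num : (0 : ℝ) ≤ 1 / 4)
    have h' : ((16 : ℝ) ^ (4 : ℕ)) ^ (1 / 4 : ℝ) = 16 := by
      rw [← Real.rpow_natCast, ← Real.rpow_mul (by norm_num)]
      norm_num
    rw [h'] at h
    rw [Real.rpow_neg hR0.le, one_div, one_div]
    rw [one_div] at h
    exact inv_anti₀ (by norm_num) h
  have hw8 : 2 * R ^ (-(1 / 4) : ℝ) ≤ 1 / 8 := by linarith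
  have hPU : PU Γ D.U := (hVUB Γ δ B D.U hO.pot hδ).1
  have hp8 : ∀ p : SL(2, ℝ) × ℝ, p ∈ GW 2 R → |p.2| ≤ 1 / 8 := by
    intro p hp
    have h2 : p.2 ∈ Icc (-(2 * R ^ (-(1 / 4) : ℝ))) (2 * R ^ (-(1 / 4) : ℝ)) := hp.2
    rw [abs_le]
    exact ⟨by linarith [h2.1], by linarith [h2.2]⟩
  have hexp : ∀ x : ℝ, x ≤ 1 / 4 → R ^ (-(1 / 2) + x) ≤ 1 / 16 := fun x hx =>
    (Real.rpow_le_rpow_of_exponent_le hR1' (by linarith)).trans hu
  have ht0 : 0 ≤ A.sg R := mul_nonneg he3.le (Real.log_nonneg hR1')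
  have hη1 : C3 * A.z1 ≤ 1 / 4 := by
    have := hA.z2
    nlinarith
  have hη0 : 0 < C3 * A.z1 := by positivity
  obtain ⟨hQc, hQb, hQi, hQF, hQs, -⟩ := hVQS R Γ F D.U (by linarith) hD hPU
  obtain ⟨hfa, -, -, -, -⟩ := hVFM R δ (A.sg R) Γ D (by linarith) hO hδ (by
    rw [abs_of_nonneg ht0]
    exact le_rfl)
  obtain ⟨hFc, hFb, -, -, hFaF, -⟩ := hVFR Γ F δ B D 0 (C3 * A.z1) (R ^ (3 / 2 + C3 * A.z1)) R
    (A.sg R) (pv D ch A.z A.z1 R (A.sg R)) hD hO hδ hη0 hη1 (by positivity)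
    ((hexp _ hη1).trans (by norm_num)) hw8 hR1' hfa
  obtain ⟨hKus, hKusm, -, hus0, husm0, hOp, -⟩ := hVUM R δ Γ F D (by linarith) hD hO hδ
  have hKpr : KZ Γ dW (pr D ch A R) := hKusm 0
  have hpr0 : ∀ p q, pr D ch A R p q ≠ 0 → p ∈ GW 2 R ∧ q ∈ GW 2 R := husm0 0
  obtain ⟨hVQA1, hVQA2⟩ := hVQA R Γ F D.U (by linarith) hD hPU
  have hVSA' := (hVSA R δ (A.sg R) Γ F D (by linarith) hD hO hδ ht0 le_rfl).2
  have hVUL' := fun p q (hp : p ∈ GW 2 R) (hq : q ∈ GW 2 R) =>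
    hVUL R δ (A.sg R) Γ D p q (by linarith) hO hδ ht0 le_rfl hp hq
  have hr : R ^ (-(1 / 2) + C1 * A.z1) ≤ A.r R := by
    refine Real.rpow_le_rpow_of_exponent_le hR1' ?_
    have := hA.z2
    nlinarith
  have hGs : ∀ p z, Gp D.U ch A.z R p z ≠ 0 → dist (p.1 • I : ℍ) z ≤ 1 := by
    intro p z hne
    have h1 := (hQb p z).2 hne
    have h2 := hexp A.z (by linarith)
    linarith
  have hκ : (0 : ℝ) ≤ R ^ (-5 : ℝ) := by positivity
  have hκ2 : (C5 * R ^ (-5 : ℝ)) ^ 2 ≤ R ^ (-8 : ℝ) := by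
    have h1 : C5 * R ^ (-5 : ℝ) ≤ R ^ (-4 : ℝ) := by
      have h2 : R ^ (-4 : ℝ) = R * R ^ (-5 : ℝ) := by
        nth_rewrite 2 [← Real.rpow_one R]
        rw [← Real.rpow_add hR0]
        norm_num
      rw [h2]
      exact mul_le_mul_of_nonneg_right (by linarith) hκ
    have h3 : R ^ (-8 : ℝ) = (R ^ (-4 : ℝ)) ^ 2 := by
      rw [← Real.rpow_natCast, ← Real.rpow_mul hR0.le]
      norm_num
    rw [h3]
    exact pow_le_pow_left₀ (by positivity) h1 2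
  have hnv : 0 ≤ nP F 2 R v := integral_nonneg fun p => by positivity
  -- the first kernel
  have hψc : ∀ p ∈ GW 2 R, Continuous (psi D ch A.z A.z1 R (A.sg R) p) := by
    intro p hp
    have h1 := VTS_psc D (A.sg R) (pv D ch A.z A.z1 R (A.sg R)) hFc p (hp8 p hp)
    exact h1
  have hψb : ∀ p ∈ GW 2 R, ∀ z, ‖psi D ch A.z A.z1 R (A.sg R) p z‖ ≤ R ^ (3 / 2 + C3 * A.z1) :=
    fun p hp z => (hFb p hp z).1
  have hψs : ∀ p ∈ GW 2 R, ∀ z, psi D ch A.z A.z1 R (A.sg R) p z ≠ 0 →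
      dist (D.fl p.2 (A.sg R) p.1 • I : ℍ) z ≤ 1 :=
    fun p hp z hne => ((hFb p hp z).2 hne).1
  have hGb : ∀ p z, ‖Gp D.U ch A.z R p z‖ ≤ R ^ (3 / 2 : ℝ) := fun p z => (hQb p z).1
  have hKTm : Measurable (Function.uncurry (us D ch A R)) := hKus.meas
  have hKT0 : ∀ p q, us D ch A R p q ≠ 0 → q ∈ GW 2 R := fun p q hne => (hus0 p q hne).2
  have hKT : ∀ p ∈ GW 2 R, ∀ q ∈ GW 2 R,
      us D ch A R p q = (∫ z : ℍ, conj (psi D ch A.z A.z1 R (A.sg R) p z) * Gp D.U ch A.z R q z) ∨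
      (us D ch A R p q = 0 ∧
        ‖∫ z : ℍ, conj (psi D ch A.z A.z1 R (A.sg R) p z) * Gp D.U ch A.z R q z‖ ≤ R ^ (-5 : ℝ)) := by
    intro p hp q hq
    by_cases hN : Nb (A.r R) (D.ph (A.sg R) p) q
    · left
      unfold us
      rw [if_pos ⟨hp.2, hq.2, hN⟩]
    · right
      refine ⟨?_, ?_⟩
      · unfold us
        rw [if_neg (fun h => hN h.2.2)]
      · exact (hVUL' p q hp hq).2.2.1 (fun h => hN (VTS_Nb _ _ hr _ _ h))
  have hus1 := VTS_one hVDM hVNV Γ F δ B D R (A.sg R) (R ^ (-5 : ℝ)) hD hO hδ hw8 hR1'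
    (Gp D.U ch A.z R) (psi D ch A.z A.z1 R (A.sg R)) (us D ch A R) v hv hQc hψc
    (R ^ (3 / 2 : ℝ)) (R ^ (3 / 2 + C3 * A.z1)) hGb hψb hGs hψs hKTm hKT0 hKT
  have hus2 := hSch Γ F δ B D R (A.sg R) (R ^ (-5 : ℝ)) hD hO hδ hw8 hR1' hκ v
    (fun p => Op (us D ch A R) v p - ∫ z : ℍ, Qs D.U ch A.z R v z * conj (psi D ch A.z A.z1 R (A.sg R) p z)) hv hus1
  have hus3 : nP F 2 R (fun p => Op (us D ch A R) v p - ∫ z : ℍ, Qs D.U ch A.z R v z *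
      conj (psi D ch A.z A.z1 R (A.sg R) p z)) ≤ R ^ (-8 : ℝ) * nP F 2 R v :=
    hus2.trans (mul_le_mul_of_nonneg_right hκ2 hnv)
  -- the second kernel
  have hGc : ∀ p ∈ GW 2 R, Continuous (Gp D.U ch A.z R p) := fun p _ =>
    VTS_gc (Gp D.U ch A.z R) hQc p
  have hGb2 : ∀ p ∈ GW 2 R, ∀ z, ‖Gp D.U ch A.z R p z‖ ≤ R ^ (3 / 2 : ℝ) := fun p _ z => hGb p z
  have hGs2 : ∀ p ∈ GW 2 R, ∀ z, Gp D.U ch A.z R p z ≠ 0 →
      dist (D.fl p.2 0 p.1 • I : ℍ) z ≤ 1 := by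
    intro p hp z hne
    rw [hO.fl0]
    exact hGs p z hne
  have hKTm2 : Measurable (Function.uncurry (pr D ch A R)) := hKpr.meas
  have hKT02 : ∀ p q, pr D ch A R p q ≠ 0 → q ∈ GW 2 R := fun p q hne => (hpr0 p q hne).2
  have hKT2 : ∀ p ∈ GW 2 R, ∀ q ∈ GW 2 R,
      pr D ch A R p q = (∫ z : ℍ, conj (Gp D.U ch A.z R p z) * Gp D.U ch A.z R q z) ∨
      (pr D ch A R p q = 0 ∧
        ‖∫ z : ℍ, conj (Gp D.U ch A.z R p z) * Gp D.U ch A.z R q z‖ ≤ R ^ (-5 : ℝ)) := by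
    intro p hp q hq
    by_cases hN : Nb (A.r R) p q
    · left
      unfold pr
      rw [if_pos ⟨hp.2, hq.2, hN⟩]
    · right
      refine ⟨?_, ?_⟩
      · unfold pr
        rw [if_neg (fun h => hN h.2.2)]
      · exact (hVUL' p q hp hq).2.2.2.2 (fun h => hN (VTS_Nb _ _ hr _ _ h))
  have hpr1 := VTS_one hVDM hVNV Γ F δ B D R 0 (R ^ (-5 : ℝ)) hD hO hδ hw8 hR1'
    (Gp D.U ch A.z R) (Gp D.U ch A.z R) (pr D ch A R) v hv hQc hGc
    (R ^ (3 / 2 : ℝ)) (R ^ (3 / 2 : ℝ)) hGb hGb2 hGs hGs2 hKTm2 hKT02 hKT2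
  have hpr2 := hSch Γ F δ B D R 0 (R ^ (-5 : ℝ)) hD hO hδ hw8 hR1' hκ v
    (fun p => Op (pr D ch A R) v p - QF D.U ch A.z R (Qs D.U ch A.z R v) p) hv hpr1
  have hpr3 : nP F 2 R (fun p => Op (pr D ch A R) v p - QF D.U ch A.z R (Qs D.U ch A.z R v) p) ≤
      R ^ (-8 : ℝ) * nP F 2 R v :=
    hpr2.trans (mul_le_mul_of_nonneg_right hκ2 hnv)
  have hnum := hnum R hRbig
  have hfin : ∀ x y a : ℝ, x ≤ (1 + R ^ (-(1 / 4) : ℝ)) ^ 2 * nP F 2 R v → y ≤ R ^ (-8 : ℝ) * nP F 2 R v →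
      a ≤ (1 + R ^ (-4 : ℝ)) * x + (1 + (R ^ (-4 : ℝ))⁻¹) * y → a ≤ (1 + R ^ (-(1 / 5) : ℝ)) ^ 2 * nP F 2 R v := by
    intro x y a hx hy ha
    have hs : 0 < R ^ (-4 : ℝ) := by positivity
    calc a ≤ (1 + R ^ (-4 : ℝ)) * x + (1 + (R ^ (-4 : ℝ))⁻¹) * y := ha
      _ ≤ (1 + R ^ (-4 : ℝ)) * ((1 + R ^ (-(1 / 4) : ℝ)) ^ 2 * nP F 2 R v) +
          (1 + (R ^ (-4 : ℝ))⁻¹) * (R ^ (-8 : ℝ) * nP F 2 R v) := by gcongr
      _ = ((1 + R ^ (-4 : ℝ)) * (1 + R ^ (-(1 / 4) : ℝ)) ^ 2 + (1 + (R ^ (-4 : ℝ))⁻¹) * R ^ (-8 : ℝ)) *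
          nP F 2 R v := by ring
      _ ≤ _ := mul_le_mul_of_nonneg_right hnum hnv
  have hPW : MeasurableSet (PW F 2 R) := ((hVDM Γ F hD).2.2.2.2 (Wi 2 R) measurableSet_Icc).2.2.2.2.1.prod measurableSet_Icc
  have hs4 : 0 < R ^ (-4 : ℝ) := by positivity
  have hu0 : 0 ≤ R ^ (-(1 / 4) : ℝ) := by positivity
  refine ⟨hus3, hpr3, ?_, ?_⟩
  · have h1 := VTS_tri hVDM Γ F hD R (by linarith) (Op (us D ch A R) v)
      (aF D R (A.sg R) (pv D ch A.z A.z1 R (A.sg R)) (Qs D.U ch A.z R v))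
      (hOp _ v hKus hus0 hv) (hFaF _ (hQs v hv)) (R ^ (-4 : ℝ)) hs4
    refine hfin _ _ _ ?_ ?_ h1
    · refine (hVSA' _ (hQs v hv)).trans ?_
      exact mul_le_mul_of_nonneg_left (hVQA2 v hv) (by positivity)
    · refine le_trans (le_of_eq ?_) hus3
      unfold nP
      refine setIntegral_congr_fun hPW fun p hp => ?_
      have hpG : p ∈ GW 2 R := ⟨mem_univ _, hp.2⟩
      show ‖Op (us D ch A R) v p - aF D R (A.sg R) (pv D ch A.z A.z1 R (A.sg R)) (Qs D.U ch A.z R v) p‖ ^ 2 =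
        ‖Op (us D ch A R) v p - ∫ z : ℍ, Qs D.U ch A.z R v z * conj (psi D ch A.z A.z1 R (A.sg R) p z)‖ ^ 2
      unfold aF
      rw [indicator_of_mem hpG]
      rfl
  · have h1 := VTS_tri hVDM Γ F hD R (by linarith) (Op (pr D ch A R) v)
      (QF D.U ch A.z R (Qs D.U ch A.z R v))
      (hOp _ v hKpr hpr0 hv) (hQF _ (hQs v hv)).2 (R ^ (-4 : ℝ)) hs4
    refine hfin _ _ _ ?_ hpr3 h1
    refine (hVQA1 _ (hQs v hv)).1.trans ((hVQA2 v hv).trans ?_)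
    refine le_mul_of_one_le_left hnv ?_
    exact one_le_pow₀ (by linarith)

end

end Pool.Agent.VQ
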